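import Mathlib

/-!
# The sum of the absolute values of the coefficients
-/

set_option autoImplicit false

namespace Pool.Agent.H72.CC

open MvPolynomial

variable {σ : Type} [DecidableEq σ]

/-- the sum of the absolute values of the coefficients -/
noncomputable def l1 (Q : MvPolynomial σ ℤ) : ℝ := ∑ e ∈ Q.support, |((Q.coeff e : ℤ) : ℝ)|

theorem l1_nonneg (Q : MvPolynomial σ ℤ) : 0 ≤ l1 Q := Finset.sum_nonneg fun _ _ => abs_nonneg _

theorem coeff_le_l1 (Q : MvPolynomial σ ℤ) (e : σ →₀ ℕ) : |((Q.coeff e : ℤ) : ℝ)| ≤ l1 Q := by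
  by_cases he : e ∈ Q.support
  · exact Finset.single_le_sum (f := fun e => |((Q.coeff e : ℤ) : ℝ)|)
      (fun _ _ => abs_nonneg _) he
  · rw [notMem_support_iff.1 he]
    simp only [Int.cast_zero, abs_zero]
    exact l1_nonneg Q

theorem l1_eq (Q : MvPolynomial σ ℤ) (T : Finset (σ →₀ ℕ)) (h : Q.support ⊆ T) :
    l1 Q = ∑ e ∈ T, |((Q.coeff e : ℤ) : ℝ)| := by
  refine Finset.sum_subset h fun e _ he => ?_
  rw [notMem_support_iff.1 he]
  simp

theorem l1_zero : l1 (0 : MvPolynomial σ ℤ) = 0 := by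
  unfold l1
  rw [support_zero, Finset.sum_empty]

theorem l1_add (Q R : MvPolynomial σ ℤ) : l1 (Q + R) ≤ l1 Q + l1 R := by
  rw [l1_eq (Q + R) (Q.support ∪ R.support) support_add,
    l1_eq Q (Q.support ∪ R.support) Finset.subset_union_left,
    l1_eq R (Q.support ∪ R.support) Finset.subset_union_right, ← Finset.sum_add_distrib]
  refine Finset.sum_le_sum fun e _ => ?_
  rw [coeff_add]
  push_cast
  exact abs_add_le _ _

theorem l1_sum {ι : Type*} (s : Finset ι) (f : ι → MvPolynomial σ ℤ) :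
    l1 (∑ i ∈ s, f i) ≤ ∑ i ∈ s, l1 (f i) := by
  classical
  induction s using Finset.induction_on with
  | empty => simp [l1_zero]
  | insert a s ha ih =>
    rw [Finset.sum_insert ha, Finset.sum_insert ha]
    exact (l1_add _ _).trans (by linarith)

theorem l1_monomial (e : σ →₀ ℕ) (a : ℤ) : l1 (monomial e a) = |(a : ℝ)| := by
  rw [l1_eq (monomial e a) {e} support_monomial_subset, Finset.sum_singleton, coeff_monomial,
    if_pos rfl]

theorem l1_mul (Q R : MvPolynomial σ ℤ) : l1 (Q * R) ≤ l1 Q * l1 R := by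
  have h : Q * R = ∑ u ∈ Q.support, ∑ v ∈ R.support, monomial (u + v) (Q.coeff u * R.coeff v) := by
    conv_lhs => rw [Q.as_sum, R.as_sum, Finset.sum_mul_sum]
    refine Finset.sum_congr rfl fun u _ => Finset.sum_congr rfl fun v _ => ?_
    rw [monomial_mul]
  rw [h]
  refine (l1_sum _ _).trans ?_
  calc ∑ u ∈ Q.support, l1 (∑ v ∈ R.support, monomial (u + v) (Q.coeff u * R.coeff v))
      ≤ ∑ u ∈ Q.support, ∑ v ∈ R.support, |((Q.coeff u : ℤ) : ℝ)| * |((R.coeff v : ℤ) : ℝ)| := by
        refine Finset.sum_le_sum fun u _ => (l1_sum _ _).trans (Finset.sum_le_sum fun v _ => ?_)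
        rw [l1_monomial]
        push_cast
        rw [abs_mul]
    _ = l1 Q * l1 R := by
        unfold l1
        rw [Finset.sum_mul_sum]

theorem l1_one : l1 (1 : MvPolynomial σ ℤ) ≤ 1 := by
  have : (1 : MvPolynomial σ ℤ) = monomial 0 1 := rfl
  rw [this, l1_monomial]
  simp

theorem l1_pow (Q : MvPolynomial σ ℤ) (n : ℕ) : l1 (Q ^ n) ≤ l1 Q ^ n := by
  induction n with
  | zero => simpa using l1_one
  | succ n ih =>
    rw [pow_succ, pow_succ]
    exact (l1_mul _ _).trans (mul_le_mul_of_nonneg_right ih (l1_nonneg Q))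

theorem l1_prod {ι : Type*} (s : Finset ι) (f : ι → MvPolynomial σ ℤ) :
    l1 (∏ i ∈ s, f i) ≤ ∏ i ∈ s, l1 (f i) := by
  classical
  induction s using Finset.induction_on with
  | empty => simpa using l1_one
  | insert a s ha ih =>
    rw [Finset.prod_insert ha, Finset.prod_insert ha]
    exact (l1_mul _ _).trans (mul_le_mul_of_nonneg_left ih (l1_nonneg _))

theorem l1_C (a : ℤ) : l1 (C a : MvPolynomial σ ℤ) = |(a : ℝ)| := l1_monomial 0 a

theorem l1_X (i : σ) : l1 (X i : MvPolynomial σ ℤ) ≤ 1 := by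
  have : (X i : MvPolynomial σ ℤ) = monomial (Finsupp.single i 1) 1 := rfl
  rw [this, l1_monomial]
  simp

end Pool.Agent.H72.CC
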