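import Pool.Agent.H72.CC.Stmt2

/-!
# Linear changes of the tuple
-/

set_option autoImplicit false

namespace Pool.Agent.H72.CC

open MvPolynomial

/-- exponents of bounded degree are finitely many -/
theorem fin_deg (n d : ℕ) : {m : Fin n →₀ ℕ | m.sum (fun _ e => e) ≤ d}.Finite := by
  have h : {m : Fin n →₀ ℕ | m.sum (fun _ e => e) ≤ d} ⊆
      {m : Fin n →₀ ℕ | m ≤ Finsupp.equivFunOnFinite.symm (fun _ => d)} := by
    intro m hm k
    show m k ≤ d
    have h1 : m k ≤ m.sum (fun _ e => e) := by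
      by_cases hk : k ∈ m.support
      · exact Finset.single_le_sum (f := fun i => m i) (fun _ _ => Nat.zero_le _) hk
      · rw [Finsupp.notMem_support_iff.1 hk]
        exact Nat.zero_le _
    exact h1.trans hm
  exact (Set.finite_Iic _).subset h

/-- coefficients of a fixed polynomial are bounded -/
theorem coeff_bd {m : ℕ} (Q : MvPolynomial (Fin m) ℤ) : ∃ c : ℝ, 0 ≤ c ∧
    ∀ e : Fin m →₀ ℕ, |((Q.coeff e : ℤ) : ℝ)| ≤ c := by
  refine ⟨∑ e ∈ Q.support, |((Q.coeff e : ℤ) : ℝ)|, Finset.sum_nonneg fun _ _ => abs_nonneg _,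
    fun e => ?_⟩
  by_cases he : e ∈ Q.support
  · exact Finset.single_le_sum (f := fun e => |((Q.coeff e : ℤ) : ℝ)|)
      (fun _ _ => abs_nonneg _) he
  · rw [notMem_support_iff.1 he]
    simp only [Int.cast_zero, abs_zero]
    exact Finset.sum_nonneg fun _ _ => abs_nonneg _

/-- heights after a linear substitution -/
theorem height_sub {n m : ℕ} (d : ℕ) (φ : MvPolynomial (Fin n) ℤ →ₐ[ℤ] MvPolynomial (Fin m) ℤ) :
    ∃ c : ℝ, 1 ≤ c ∧ ∀ (H : ℝ) (P : MvPolynomial (Fin n) ℤ), 0 ≤ H → P.totalDegree ≤ d →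
      (∀ e : Fin n →₀ ℕ, |((P.coeff e : ℤ) : ℝ)| ≤ H) →
      ∀ e : Fin m →₀ ℕ, |(((φ P).coeff e : ℤ) : ℝ)| ≤ c * H := by
  classical
  choose c0 hc0 hc using fun a : Fin n →₀ ℕ => coeff_bd (φ (monomial a 1))
  set T : Finset (Fin n →₀ ℕ) := (fin_deg n d).toFinset with hT
  refine ⟨1 + ∑ a ∈ T, c0 a, by
    have : 0 ≤ ∑ a ∈ T, c0 a := Finset.sum_nonneg fun a _ => hc0 a
    linarith, ?_⟩
  intro H P hH hd hP e
  have h1 : φ P = ∑ a ∈ P.support, P.coeff a • φ (monomial a 1) := by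
    conv_lhs => rw [P.as_sum, map_sum]
    refine Finset.sum_congr rfl fun a _ => ?_
    rw [← map_smul, smul_monomial, smul_eq_mul, mul_one]
  have hsub : P.support ⊆ T := by
    intro a ha
    rw [hT, Set.Finite.mem_toFinset]
    exact (le_totalDegree ha).trans hd
  rw [h1, coeff_sum]
  push_cast
  calc |∑ a ∈ P.support, (((P.coeff a • φ (monomial a 1)).coeff e : ℤ) : ℝ)|
      ≤ ∑ a ∈ P.support, |(((P.coeff a • φ (monomial a 1)).coeff e : ℤ) : ℝ)| :=
        Finset.abs_sum_le_sum_abs _ _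
    _ ≤ ∑ a ∈ P.support, H * c0 a := by
        refine Finset.sum_le_sum fun a _ => ?_
        rw [coeff_smul, smul_eq_mul]
        push_cast
        rw [abs_mul]
        exact mul_le_mul (hP a) (hc a e) (abs_nonneg _) hH
    _ ≤ ∑ a ∈ T, H * c0 a :=
        Finset.sum_le_sum_of_subset_of_nonneg hsub fun a _ _ => mul_nonneg hH (hc0 a)
    _ = (∑ a ∈ T, c0 a) * H := by rw [← Finset.mul_sum, mul_comm]
    _ ≤ (1 + ∑ a ∈ T, c0 a) * H := by
        refine mul_le_mul_of_nonneg_right ?_ hH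
        linarith

/-- Q1 for `z` implies Q1 for the image under an injective linear substitution -/
theorem msr_lin {n m d : ℕ} (z : Fin m → ℂ) (hz : Msr d z) (M : Fin n → Fin m → ℤ)
    (hinj : Function.Injective
      (aeval (fun i => ∑ k, C (M i k) * X k) : MvPolynomial (Fin n) ℤ →ₐ[ℤ]
        MvPolynomial (Fin m) ℤ)) :
    Msr d (fun i => ∑ k, (M i k : ℂ) * z k) := by
  classical
  set φ : MvPolynomial (Fin n) ℤ →ₐ[ℤ] MvPolynomial (Fin m) ℤ :=
    aeval (fun i => ∑ k, C (M i k) * X k) with hφ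
  obtain ⟨C0, hC0, hz⟩ := hz
  obtain ⟨c, hc, hh⟩ := height_sub d φ
  set C1 : ℝ := C0 * (1 + Real.logb 2 c) with hC1
  have hlog : 0 ≤ Real.logb 2 c := Real.logb_nonneg (by norm_num) hc
  refine ⟨C1, mul_pos hC0 (by linarith), ?_⟩
  intro H hH P hP hd hPc
  have hH0 : 0 < H := by linarith
  have h1 : φ P ≠ 0 := fun e => hP (hinj (by rw [e, map_zero]))
  have h2 : (φ P).totalDegree ≤ d := by
    refine le_trans ?_ hd
    have h3 : φ P = ∑ a ∈ P.support, C (P.coeff a) *
        ∏ i, (∑ k, C (M i k) * X k : MvPolynomial (Fin m) ℤ) ^ a i := by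
      rw [hφ, aeval_def, eval₂_eq']
      rfl
    rw [h3]
    refine totalDegree_finsetSum_le fun a ha => ?_
    refine (totalDegree_mul _ _).trans ?_
    rw [totalDegree_C, zero_add]
    refine (totalDegree_finset_prod _ _).trans ?_
    have h4 : ∀ i, ((∑ k, C (M i k) * X k : MvPolynomial (Fin m) ℤ) ^ a i).totalDegree ≤ a i := by
      intro i
      refine (totalDegree_pow _ _).trans ?_
      have h5 : (∑ k, C (M i k) * X k : MvPolynomial (Fin m) ℤ).totalDegree ≤ 1 := by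
        refine totalDegree_finsetSum_le fun k _ => ?_
        refine (totalDegree_mul _ _).trans ?_
        rw [totalDegree_C, zero_add, totalDegree_X]
      calc a i * _ ≤ a i * 1 := Nat.mul_le_mul_left _ h5
        _ = a i := mul_one _
    refine (Finset.sum_le_sum fun i _ => h4 i).trans ?_
    have h6 := le_totalDegree ha
    rwa [Finsupp.sum_fintype _ _ (fun _ => rfl)] at h6
  have h3 : ∀ e : Fin m →₀ ℕ, |(((φ P).coeff e : ℤ) : ℝ)| ≤ c * H :=
    hh H P hH0.le hd hPc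
  have h4 : (2 : ℝ) ≤ c * H := by nlinarith
  have h5 := hz (c * H) h4 (φ P) h1 h2 h3
  have h6 : aeval z (φ P) = aeval (fun i => ∑ k, (M i k : ℂ) * z k) P := by
    rw [hφ, ← AlgHom.comp_apply]
    congr 1
    ext i
    simp
  rw [h6] at h5
  refine le_trans ?_ h5
  -- `(c H) ^ (-C0) ≥ H ^ (-C1)`
  have h7 : c ≤ H ^ (Real.logb 2 c) := by
    calc c = (2 : ℝ) ^ (Real.logb 2 c) := (Real.rpow_logb (by norm_num) (by norm_num)
          (by linarith)).symm
      _ ≤ H ^ (Real.logb 2 c) := Real.rpow_le_rpow (by norm_num) hH hlog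
  have h8 : c * H ≤ H ^ (1 + Real.logb 2 c) := by
    rw [Real.rpow_add hH0, Real.rpow_one, mul_comm]
    exact mul_le_mul_of_nonneg_left h7 hH0.le
  have h9 : H ^ (-C1) = (H ^ (1 + Real.logb 2 c)) ^ (-C0) := by
    rw [← Real.rpow_mul hH0.le]
    congr 1
    rw [hC1]
    ring
  rw [h9]
  exact Real.rpow_le_rpow_of_nonpos (by positivity) h8 (by linarith)

end Pool.Agent.H72.CC
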