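import Mathlib

/-!
# MP_3cf473_nt: fixed tuples of logarithms with a prescribed logarithm. Statement.
-/

set_option autoImplicit false

namespace Pool.Agent.H72.CC

open Complex

noncomputable section

/-- Q1 for the tuple `y` and the degree `d`: there is a constant `C` such that `|P(y)| ≥ H ^ (-C)`
for all `H ≥ 2` and all nonzero integer polynomials `P` of total degree at most `d` with
coefficients of absolute value at most `H` -/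
def Msr {n : ℕ} (d : ℕ) (y : Fin n → ℂ) : Prop :=
  ∃ C : ℝ, 0 < C ∧ ∀ H : ℝ, 2 ≤ H → ∀ P : MvPolynomial (Fin n) ℤ, P ≠ 0 → P.totalDegree ≤ d →
    (∀ m : Fin n →₀ ℕ, |((P.coeff m : ℤ) : ℝ)| ≤ H) → H ^ (-C) ≤ ‖MvPolynomial.aeval y P‖

/-- `ξ` is a real or a purely imaginary logarithm of an algebraic number, `ξ ≠ 0` -/
def RIL (ξ : ℂ) : Prop := ξ ≠ 0 ∧ IsAlgebraic ℚ (exp ξ) ∧ (ξ.re = 0 ∨ ξ.im = 0)

/-- no two of the Gaussian integers `x k + i y k` are equal or conjugate -/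
def NCj {n : ℕ} (x y : Fin n → ℤ) : Prop := ∀ j k, j ≠ k → x j = x k → y j ≠ y k ∧ y j ≠ - y k

/-- (A) a prescribed logarithm and the logarithms of `1 + b k / N`, `b k` not real -/
def S_A : Prop := ∀ n d : ℕ, ∃ (δ : ℝ) (N₁ : ℕ), 0 < δ ∧ ∀ N : ℕ, N₁ ≤ N → ∀ x y : Fin n → ℤ,
  (∀ k, |((x k : ℤ) : ℝ)| ≤ (N : ℝ) ^ δ ∧ |((y k : ℤ) : ℝ)| ≤ (N : ℝ) ^ δ) → NCj x y →
  (∀ k, y k ≠ 0) → ∀ ξ : ℂ, RIL ξ →
  Msr d (Fin.cons ξ (fun k => log (1 + ((x k : ℂ) + (y k : ℂ) * I) / N)) : Fin (n + 1) → ℂ)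

/-- (B) logarithms of Gaussian integers near `N`, at most one of them real -/
def S_B : Prop := ∀ n d : ℕ, ∃ (δ : ℝ) (N₁ : ℕ), 0 < δ ∧ ∀ N : ℕ, N₁ ≤ N → ∀ x y : Fin n → ℤ,
  (∀ k, |((x k : ℤ) : ℝ)| ≤ (N : ℝ) ^ δ ∧ |((y k : ℤ) : ℝ)| ≤ (N : ℝ) ^ δ) → NCj x y →
  (∀ j k, y j = 0 → y k = 0 → j = k) →
  Msr d (fun k => log ((N : ℂ) + (x k : ℂ) + (y k : ℂ) * I))

/-- (C) other branches of the logarithms of `1 + b k / N`, `b k` real -/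
def S_C : Prop := ∀ n d : ℕ, ∃ (δ : ℝ) (N₁ : ℕ), 0 < δ ∧ ∀ N : ℕ, N₁ ≤ N → ∀ b : Fin n → ℕ,
  Function.Injective b → (∀ k, b k ≠ 0) → (∀ k, (b k : ℝ) ≤ (N : ℝ) ^ δ) →
  ∀ ξ : ℂ, ξ.re = 0 → IsAlgebraic ℚ (exp ξ) → ∀ c : Fin n → ℤ,
  Msr d (fun k => ((Real.log (1 + b k / N) : ℝ) : ℂ) + (c k : ℂ) * ξ)

end

end Pool.Agent.H72.CC
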