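import Pool.Agent.H72.CC.Stmt

/-!
# MP_3cf473_nt: fixed tuples of logarithms with a prescribed logarithm. The final statement.
-/

set_option autoImplicit false

namespace Pool.Agent.H72.CC

open Complex

noncomputable section

/-- (U) one statement for (A) and (B): the numbers `c j * ξ + log (1 + b j / N)`, where the Gaussian
integers `b j = x j + i y j` are pairwise distinct and not conjugate, and each of them is not real
or zero, with `c j ≠ 0` in the last case -/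
def S_U : Prop := ∀ n d : ℕ, ∃ (δ : ℝ) (N₁ : ℕ), 0 < δ ∧ ∀ N : ℕ, N₁ ≤ N → ∀ x y : Fin n → ℤ,
  (∀ k, |((x k : ℤ) : ℝ)| ≤ (N : ℝ) ^ δ ∧ |((y k : ℤ) : ℝ)| ≤ (N : ℝ) ^ δ) → NCj x y →
  ∀ c : Fin n → ℤ, (∀ k, y k ≠ 0 ∨ (x k = 0 ∧ c k ≠ 0)) → ∀ ξ : ℂ, RIL ξ →
  Msr d (fun k => (c k : ℂ) * ξ + log (1 + ((x k : ℂ) + (y k : ℂ) * I) / N))

end

end Pool.Agent.H72.CC
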