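import Mathlib

/-!
# MP_3cf473_nt: fixed tuples of logarithms with a prescribed logarithm. The uniform statement.
-/

set_option autoImplicit false

namespace Pool.Agent.H72.CC

open Complex

noncomputable section

/-- (V) the numbers `c j * ξ + log (1 + b j / N)`: `ξ` is a real or a purely imaginary logarithm of
an algebraic number, the Gaussian integers `b j = x j + i y j` are small compared with `N`, pairwise
distinct and not conjugate, and each of them is not real or zero, with `c j ≠ 0` in the last case -/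
def S_V : Prop := ∀ n d : ℕ, ∃ (δ : ℝ) (N₁ : ℕ), 0 < δ ∧
  ∀ ξ : ℂ, ξ ≠ 0 → IsAlgebraic ℚ (exp ξ) → ξ.re = 0 ∨ ξ.im = 0 → ∃ C : ℝ, 0 < C ∧
  ∀ N : ℕ, N₁ ≤ N → ∀ x y : Fin n → ℤ,
  (∀ k, |((x k : ℤ) : ℝ)| ≤ (N : ℝ) ^ δ ∧ |((y k : ℤ) : ℝ)| ≤ (N : ℝ) ^ δ) →
  (∀ j k, j ≠ k → x j = x k → y j ≠ y k ∧ y j ≠ - y k) →
  ∀ c : Fin n → ℤ, (∀ k, y k ≠ 0 ∨ (x k = 0 ∧ c k ≠ 0)) →
  ∀ H : ℝ, 2 ≤ H → (N : ℝ) ≤ H → (∀ k, |((c k : ℤ) : ℝ)| ≤ H) →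
  ∀ P : MvPolynomial (Fin n) ℤ, P ≠ 0 → P.totalDegree ≤ d →
  (∀ m : Fin n →₀ ℕ, |((P.coeff m : ℤ) : ℝ)| ≤ H) →
  H ^ (-C) ≤ ‖MvPolynomial.aeval
    (fun k => (c k : ℂ) * ξ + log (1 + ((x k : ℂ) + (y k : ℂ) * I) / N)) P‖

end

end Pool.Agent.H72.CC
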