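import Pool.Agent.H72.CC.LIN

/-!
# From (A) to (U)
-/

set_option autoImplicit false

namespace Pool.Agent.H72.CC

open MvPolynomial

/-- the integer matrix of the substitution -/
def MM {n m : ℕ} (c : Fin n → ℤ) (σ : Fin m → Fin n) (i : Fin n) : Fin (m + 1) → ℤ :=
  Fin.cons (c i) (fun j => if i = σ j then 1 else 0)

theorem MM_sum {n m : ℕ} (c : Fin n → ℤ) (σ : Fin m → Fin n) (ξ : ℂ) (g : Fin n → ℂ)
    (hσ : Function.Injective σ) (hg : ∀ i, (∀ j, i ≠ σ j) → g i = 0) (i : Fin n) :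
    ∑ k, (MM c σ i k : ℂ) * (Fin.cons ξ (fun j => g (σ j)) : Fin (m + 1) → ℂ) k =
      (c i : ℂ) * ξ + g i := by
  rw [Fin.sum_univ_succ]
  unfold MM
  simp only [Fin.cons_zero, Fin.cons_succ]
  congr 1
  by_cases h : ∃ j, i = σ j
  · obtain ⟨j, rfl⟩ := h
    rw [Finset.sum_eq_single j]
    · simp
    · intro k _ hk
      have : σ j ≠ σ k := fun e => hk (hσ e.symm)
      rw [if_neg this]
      simp
    · intro h
      exact absurd (Finset.mem_univ j) h
  · have h' : ∀ j, i ≠ σ j := fun j e => h ⟨j, e⟩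
    rw [hg i h']
    refine Finset.sum_eq_zero fun k _ => ?_
    rw [if_neg (h' k)]
    simp

theorem phi_X {n m : ℕ} (c : Fin n → ℤ) (σ : Fin m → Fin n) (i : Fin n) :
    (∑ k, C (MM c σ i k) * X k : MvPolynomial (Fin (m + 1)) ℤ) =
      C (c i) * X 0 + ∑ j, C (if i = σ j then (1 : ℤ) else 0) * X j.succ := by
  rw [Fin.sum_univ_succ]
  unfold MM
  simp only [Fin.cons_zero, Fin.cons_succ]

theorem inj_id {n : ℕ} (c : Fin n → ℤ) : Function.Injective
    (aeval (fun i => ∑ k, C (MM c id i k) * X k) : MvPolynomial (Fin n) ℤ →ₐ[ℤ]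
      MvPolynomial (Fin (n + 1)) ℤ) := by
  classical
  set ψ : MvPolynomial (Fin (n + 1)) ℤ →ₐ[ℤ] MvPolynomial (Fin n) ℤ :=
    aeval (Fin.cons 0 (fun j => X j)) with hψ
  have h : ∀ P, ψ (aeval (fun i => ∑ k, C (MM c id i k) * X k) P) = P := by
    intro P
    rw [← AlgHom.comp_apply]
    have h1 : ψ.comp (aeval (fun i => ∑ k, C (MM c id i k) * X k)) = AlgHom.id ℤ _ := by
      ext i
      rw [AlgHom.comp_apply, aeval_X, phi_X, map_add, map_mul, map_sum, hψ, aeval_X]
      simp only [Fin.cons_zero, mul_zero, zero_add, id_eq]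
      rw [Finset.sum_eq_single i]
      · simp
      · intro k _ hk
        rw [if_neg (Ne.symm hk)]
        simp
      · intro h
        exact absurd (Finset.mem_univ i) h
    rw [h1]
    rfl
  exact Function.LeftInverse.injective h

theorem inj_succ {n : ℕ} (c : Fin (n + 1) → ℤ) (j0 : Fin (n + 1)) (hc : c j0 ≠ 0) :
    Function.Injective
    (aeval (fun i => ∑ k, C (MM c j0.succAbove i k) * X k) : MvPolynomial (Fin (n + 1)) ℤ →ₐ[ℤ]
      MvPolynomial (Fin (n + 1)) ℤ) := by
  classical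
  set ψ : MvPolynomial (Fin (n + 1)) ℤ →ₐ[ℤ] MvPolynomial (Fin (n + 1)) ℚ :=
    aeval (Fin.cons (C (1 / (c j0 : ℚ)) * X j0) (fun j => X (j0.succAbove j) -
      C ((c (j0.succAbove j) : ℚ) / c j0) * X j0)) with hψ
  have hc' : (c j0 : ℚ) ≠ 0 := by exact_mod_cast hc
  have h : ∀ P, ψ (aeval (fun i => ∑ k, C (MM c j0.succAbove i k) * X k) P) =
      MvPolynomial.map (Int.castRingHom ℚ) P := by
    intro P
    rw [← AlgHom.comp_apply]
    have h1 : ((ψ.comp (aeval (fun i => ∑ k, C (MM c j0.succAbove i k) * X k)) :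
        MvPolynomial (Fin (n + 1)) ℤ →ₐ[ℤ] MvPolynomial (Fin (n + 1)) ℚ) :
        MvPolynomial (Fin (n + 1)) ℤ →+* MvPolynomial (Fin (n + 1)) ℚ) =
        MvPolynomial.map (Int.castRingHom ℚ) := by
      refine MvPolynomial.ringHom_ext (fun a => by simp) fun i => ?_
      show ψ (aeval (fun i => ∑ k, C (MM c j0.succAbove i k) * X k) (X i)) = _
      rw [aeval_X, phi_X, map_add, map_mul, map_sum, map_X]
      have e0 : ψ (X 0) = C (1 / (c j0 : ℚ)) * X j0 := by
        rw [hψ, aeval_X, Fin.cons_zero]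
      have e1 : ∀ j : Fin n, ψ (X j.succ) = X (j0.succAbove j) -
          C ((c (j0.succAbove j) : ℚ) / c j0) * X j0 := by
        intro j
        rw [hψ, aeval_X, Fin.cons_succ]
      have eC : ∀ a : ℤ, ψ (C a) = C (a : ℚ) := by
        intro a
        have : (C a : MvPolynomial (Fin (n + 1)) ℤ) = ((a : ℤ) : MvPolynomial (Fin (n + 1)) ℤ) := by
          simp
        rw [this, map_intCast]
        simp
      rw [e0, eC]
      have e2 : ∑ j, ψ (C (if i = j0.succAbove j then (1 : ℤ) else 0) * X j.succ) =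
          ∑ j, (if i = j0.succAbove j then (X (j0.succAbove j) -
          C ((c (j0.succAbove j) : ℚ) / c j0) * X j0) else 0) := by
        refine Finset.sum_congr rfl fun j _ => ?_
        rw [map_mul, e1, eC]
        split_ifs
        · simp
        · simp
      rw [e2]
      rcases Fin.eq_self_or_eq_succAbove j0 i with h2 | ⟨j, h2⟩
      · subst h2
        rw [Finset.sum_eq_zero (fun j _ => if_neg (Fin.succAbove_ne i j).symm), add_zero,
          ← mul_assoc, ← C_mul, mul_one_div_cancel hc']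
        simp
      · subst h2
        rw [Finset.sum_eq_single j]
        · rw [if_pos rfl, ← mul_assoc, ← C_mul]
          have e3 : (c (j0.succAbove j) : ℚ) * (1 / c j0) = (c (j0.succAbove j) : ℚ) / c j0 := by
            ring
          rw [e3]
          ring
        · intro k _ hk
          rw [if_neg (fun e => hk (Fin.succAbove_right_injective e).symm)]
        · intro h
          exact absurd (Finset.mem_univ j) h
    exact congrArg (fun f : MvPolynomial (Fin (n + 1)) ℤ →+* MvPolynomial (Fin (n + 1)) ℚ => f P) h1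
  intro P Q hPQ
  have h1 := congrArg ψ hPQ
  rw [h, h] at h1
  exact MvPolynomial.map_injective _ (RingHom.injective_int (Int.castRingHom ℚ)) h1

theorem pf_U (hA : S_A) : S_U := by
  classical
  intro n d
  obtain ⟨δ1, N1, hδ1, h1⟩ := hA n d
  obtain ⟨δ2, N2, hδ2, h2⟩ := hA (n - 1) d
  refine ⟨min δ1 δ2, max (max N1 N2) 1, lt_min hδ1 hδ2, ?_⟩
  intro N hN x y hxy hcj c hc ξ hξ
  have hN1 : N1 ≤ N := (le_max_left _ _).trans ((le_max_left _ _).trans hN)
  have hN2 : N2 ≤ N := (le_max_right _ _).trans ((le_max_left _ _).trans hN)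
  have hN3 : (1 : ℝ) ≤ N := by exact_mod_cast (le_max_right _ _).trans hN
  have hb1 : (N : ℝ) ^ (min δ1 δ2) ≤ (N : ℝ) ^ δ1 :=
    Real.rpow_le_rpow_of_exponent_le hN3 (min_le_left _ _)
  have hb2 : (N : ℝ) ^ (min δ1 δ2) ≤ (N : ℝ) ^ δ2 :=
    Real.rpow_le_rpow_of_exponent_le hN3 (min_le_right _ _)
  by_cases hall : ∀ k, y k ≠ 0
  · have h3 := h1 N hN1 x y (fun k => ⟨(hxy k).1.trans hb1, (hxy k).2.trans hb1⟩) hcj hall ξ hξ
    have h4 := msr_lin _ h3 (MM c id) (inj_id c)
    have h5 := MM_sum c id ξ (fun k => Complex.log (1 + ((x k : ℂ) + (y k : ℂ) * Complex.I) / N))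
      Function.injective_id (fun i hi => absurd rfl (hi i))
    have h6 : (fun i => ∑ k, (MM c id i k : ℂ) * (Fin.cons ξ (fun k => Complex.log
        (1 + ((x k : ℂ) + (y k : ℂ) * Complex.I) / N)) : Fin (n + 1) → ℂ) k) =
        fun k => (c k : ℂ) * ξ + Complex.log (1 + ((x k : ℂ) + (y k : ℂ) * Complex.I) / N) :=
      funext h5
    rw [h6] at h4
    exact h4
  · rw [not_forall] at hall
    obtain ⟨j0, hj0⟩ := hall
    rw [not_ne_iff] at hj0
    obtain ⟨m, rfl⟩ : ∃ m, n = m + 1 := ⟨n - 1, by have := j0.2; omega⟩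
    rw [Nat.add_sub_cancel] at h2
    have hx0 : x j0 = 0 ∧ c j0 ≠ 0 := by
      rcases hc j0 with h | h
      · exact absurd hj0 h
      · exact h
    have hyne : ∀ j : Fin m, y (j0.succAbove j) ≠ 0 := by
      intro j hj
      rcases hc (j0.succAbove j) with h | h
      · exact h hj
      · have h3 := hcj (j0.succAbove j) j0 (Fin.succAbove_ne j0 j) (h.1.trans hx0.1.symm)
        exact h3.1 (hj.trans hj0.symm)
    have h3 := h2 N hN2 (fun j => x (j0.succAbove j)) (fun j => y (j0.succAbove j))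
      (fun k => ⟨(hxy _).1.trans hb2, (hxy _).2.trans hb2⟩)
      (fun j k hjk => hcj _ _ (fun e => hjk (Fin.succAbove_right_injective e))) hyne ξ hξ
    have h4 := msr_lin _ h3 (MM c j0.succAbove) (inj_succ c j0 hx0.2)
    have h5 := MM_sum c j0.succAbove ξ
      (fun k => Complex.log (1 + ((x k : ℂ) + (y k : ℂ) * Complex.I) / N))
      Fin.succAbove_right_injective (fun i hi => by
        rcases Fin.eq_self_or_eq_succAbove j0 i with h | ⟨j, h⟩
        · rw [h, hj0, hx0.1]
          simp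
        · exact absurd h (hi j))
    have h6 : (fun i => ∑ k, (MM c j0.succAbove i k : ℂ) * (Fin.cons ξ (fun k => Complex.log
        (1 + ((x (j0.succAbove k) : ℂ) + (y (j0.succAbove k) : ℂ) * Complex.I) / N)) :
        Fin (m + 1) → ℂ) k) =
        fun k => (c k : ℂ) * ξ + Complex.log (1 + ((x k : ℂ) + (y k : ℂ) * Complex.I) / N) :=
      funext h5
    rw [h6] at h4
    exact h4

end Pool.Agent.H72.CC
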