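import Pool.Agent.H72.CC.L1
import Pool.Agent.H72.CC.U
import Pool.Agent.H72.CC.Stmt3
import Pool.Agent.H81.CC.Defs2

/-!
# The uniform statement (V)
-/

set_option autoImplicit false

namespace Pool.Agent.H72.CC

open MvPolynomial

/-- heights after a linear substitution with forms of norm at most `B` -/
theorem height_lin {n m : ℕ} (d : ℕ) (B H : ℝ) (hB : 1 ≤ B) (hH : 0 ≤ H)
    (L : Fin n → MvPolynomial (Fin m) ℤ) (hL : ∀ i, l1 (L i) ≤ B)
    (P : MvPolynomial (Fin n) ℤ) (hd : P.totalDegree ≤ d)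
    (hP : ∀ e : Fin n →₀ ℕ, |((P.coeff e : ℤ) : ℝ)| ≤ H) (e : Fin m →₀ ℕ) :
    |(((aeval L P : MvPolynomial (Fin m) ℤ).coeff e : ℤ) : ℝ)| ≤
      ((fin_deg n d).toFinset.card : ℝ) * (H * B ^ d) := by
  classical
  refine (coeff_le_l1 _ _).trans ?_
  have h1 : (aeval L P : MvPolynomial (Fin m) ℤ) =
      ∑ a ∈ P.support, C (P.coeff a) * ∏ i, L i ^ a i := by
    rw [aeval_def, eval₂_eq']
    rfl
  have hsub : P.support ⊆ (fin_deg n d).toFinset := by
    intro a ha
    rw [Set.Finite.mem_toFinset]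
    exact (le_totalDegree ha).trans hd
  rw [h1]
  refine (l1_sum _ _).trans ?_
  calc ∑ a ∈ P.support, l1 (C (P.coeff a) * ∏ i, L i ^ a i)
      ≤ ∑ a ∈ P.support, H * B ^ d := by
        refine Finset.sum_le_sum fun a ha => ?_
        refine (l1_mul _ _).trans ?_
        rw [l1_C]
        refine mul_le_mul (hP a) ?_ (l1_nonneg _) hH
        refine (l1_prod _ _).trans ?_
        calc ∏ i, l1 (L i ^ a i) ≤ ∏ i, B ^ a i := by
              refine Finset.prod_le_prod (fun i _ => l1_nonneg _) fun i _ => ?_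
              exact (l1_pow _ _).trans (pow_le_pow_left₀ (l1_nonneg _) (hL i) _)
          _ = B ^ (∑ i, a i) := by rw [Finset.prod_pow_eq_pow_sum]
          _ ≤ B ^ d := by
              refine pow_le_pow_right₀ hB ?_
              have h6 := (le_totalDegree ha).trans hd
              rwa [Finsupp.sum_fintype _ _ (fun _ => rfl)] at h6
    _ = (P.support.card : ℝ) * (H * B ^ d) := by
        rw [Finset.sum_const, nsmul_eq_mul]
    _ ≤ _ := by
        refine mul_le_mul_of_nonneg_right ?_ (by positivity)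
        exact_mod_cast Finset.card_le_card hsub

theorem l1_form {n m : ℕ} (c : Fin n → ℤ) (σ : Fin m → Fin n) (hσ : Function.Injective σ)
    (H : ℝ) (hc : ∀ k, |((c k : ℤ) : ℝ)| ≤ H) (i : Fin n) :
    l1 (∑ k, C (MM c σ i k) * X k : MvPolynomial (Fin (m + 1)) ℤ) ≤ H + 1 := by
  classical
  rw [phi_X]
  refine (l1_add _ _).trans ?_
  have h1 : l1 (C (c i) * X 0 : MvPolynomial (Fin (m + 1)) ℤ) ≤ H := by
    refine (l1_mul _ _).trans ?_
    rw [l1_C]
    calc |((c i : ℤ) : ℝ)| * l1 (X 0 : MvPolynomial (Fin (m + 1)) ℤ) ≤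
        |((c i : ℤ) : ℝ)| * 1 := mul_le_mul_of_nonneg_left (l1_X 0) (abs_nonneg _)
      _ ≤ H := by rw [mul_one]; exact hc i
  have h2 : l1 (∑ j, C (if i = σ j then (1 : ℤ) else 0) * X j.succ :
      MvPolynomial (Fin (m + 1)) ℤ) ≤ 1 := by
    refine (l1_sum _ _).trans ?_
    have h3 : ∀ j : Fin m, l1 (C (if i = σ j then (1 : ℤ) else 0) * X j.succ :
        MvPolynomial (Fin (m + 1)) ℤ) ≤ if i = σ j then 1 else 0 := by
      intro j
      split_ifs
      · refine (l1_mul _ _).trans ?_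
        rw [l1_C, Int.cast_one, abs_one, one_mul]
        exact l1_X _
      · simp [l1_zero]
    refine (Finset.sum_le_sum fun j _ => h3 j).trans ?_
    by_cases h : ∃ j, i = σ j
    · obtain ⟨j, rfl⟩ := h
      rw [Finset.sum_eq_single j]
      · simp
      · intro k _ hk
        rw [if_neg (fun e => hk (hσ e).symm)]
      · intro h
        exact absurd (Finset.mem_univ j) h
    · rw [Finset.sum_eq_zero fun j _ => if_neg (fun e => h ⟨j, e⟩)]
      norm_num
  linarith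

/-- the exponent of the height after the substitution -/
noncomputable def KK (n d : ℕ) : ℕ := (fin_deg n d).toFinset.card + 2 * d + 1

theorem height_MM {n m : ℕ} (d : ℕ) (H : ℝ) (hH : 2 ≤ H) (c : Fin n → ℤ) (σ : Fin m → Fin n)
    (hσ : Function.Injective σ) (hc : ∀ k, |((c k : ℤ) : ℝ)| ≤ H)
    (P : MvPolynomial (Fin n) ℤ) (hd : P.totalDegree ≤ d)
    (hP : ∀ e : Fin n →₀ ℕ, |((P.coeff e : ℤ) : ℝ)| ≤ H) (e : Fin (m + 1) →₀ ℕ) :
    |(((aeval (fun i => ∑ k, C (MM c σ i k) * X k) P : MvPolynomial (Fin (m + 1)) ℤ).coeff e :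
      ℤ) : ℝ)| ≤ H ^ KK n d := by
  have h1 := height_lin d (H + 1) H (by linarith) (by linarith) _
    (fun i => l1_form c σ hσ H hc i) P hd hP e
  refine h1.trans ?_
  set t := (fin_deg n d).toFinset.card with ht
  have h2 : (t : ℝ) ≤ H ^ t := by
    calc (t : ℝ) ≤ 2 ^ t := by exact_mod_cast Nat.lt_two_pow_self.le
      _ ≤ H ^ t := pow_le_pow_left₀ (by norm_num) hH t
  have h3 : (H + 1) ^ d ≤ H ^ (2 * d) := by
    rw [pow_mul]
    refine pow_le_pow_left₀ (by linarith) ?_ d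
    nlinarith
  calc (t : ℝ) * (H * (H + 1) ^ d) ≤ H ^ t * (H * H ^ (2 * d)) := by
        refine mul_le_mul h2 (mul_le_mul_of_nonneg_left h3 (by linarith)) (by positivity)
          (by positivity)
    _ = H ^ KK n d := by
        unfold KK
        rw [← ht]
        ring

theorem deg_MM {n m : ℕ} (d : ℕ) (c : Fin n → ℤ) (σ : Fin m → Fin n)
    (P : MvPolynomial (Fin n) ℤ) (hd : P.totalDegree ≤ d) :
    (aeval (fun i => ∑ k, C (MM c σ i k) * X k) P :
      MvPolynomial (Fin (m + 1)) ℤ).totalDegree ≤ d := by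
  refine le_trans ?_ hd
  have h3 : (aeval (fun i => ∑ k, C (MM c σ i k) * X k) P : MvPolynomial (Fin (m + 1)) ℤ) =
      ∑ a ∈ P.support, C (P.coeff a) *
      ∏ i, (∑ k, C (MM c σ i k) * X k : MvPolynomial (Fin (m + 1)) ℤ) ^ a i := by
    rw [aeval_def, eval₂_eq']
    rfl
  rw [h3]
  refine totalDegree_finsetSum_le fun a ha => ?_
  refine (totalDegree_mul _ _).trans ?_
  rw [totalDegree_C, zero_add]
  refine (totalDegree_finset_prod _ _).trans ?_
  have h4 : ∀ i, ((∑ k, C (MM c σ i k) * X k : MvPolynomial (Fin (m + 1)) ℤ) ^ a i).totalDegree ≤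
      a i := by
    intro i
    refine (totalDegree_pow _ _).trans ?_
    have h5 : (∑ k, C (MM c σ i k) * X k : MvPolynomial (Fin (m + 1)) ℤ).totalDegree ≤ 1 := by
      refine totalDegree_finsetSum_le fun k _ => ?_
      refine (totalDegree_mul _ _).trans ?_
      rw [totalDegree_C, zero_add, totalDegree_X]
    calc a i * _ ≤ a i * 1 := Nat.mul_le_mul_left _ h5
      _ = a i := mul_one _
  refine (Finset.sum_le_sum fun i _ => h4 i).trans ?_
  have h6 := le_totalDegree ha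
  rwa [Finsupp.sum_fintype _ _ (fun _ => rfl)] at h6

/-- the reduction of the height -/
theorem final_step (H C0 : ℝ) (K : ℕ) (hH : 2 ≤ H) (v : ℝ)
    (h : 1 ≤ (H ^ K) ^ C0 * v) : H ^ (-(C0 * K)) ≤ v := by
  have hH0 : (0 : ℝ) < H := by linarith
  have h1 : (H ^ K) ^ C0 = H ^ (C0 * K) := by
    rw [← Real.rpow_natCast, ← Real.rpow_mul hH0.le]
    congr 1
    ring
  rw [h1] at h
  rw [Real.rpow_neg hH0.le, ← one_div, div_le_iff₀ (Real.rpow_pos_of_pos hH0 _), mul_comm]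
  exact h

theorem star_of {ξ : ℂ} (h : ξ.re = 0 ∨ ξ.im = 0) :
    (starRingEnd ℂ) ξ = ξ ∨ (starRingEnd ℂ) ξ = -ξ := by
  rcases h with h | h
  · right
    apply Complex.ext
    · simp [h]
    · simp
  · left
    exact Complex.conj_eq_iff_im.2 h

/-- the step for one substitution -/
theorem use_sub {n m d : ℕ} {ξ : ℂ} {C0 H : ℝ} (hC0 : 0 < C0) (hH : 2 ≤ H) (g : Fin n → ℂ)
    (c : Fin n → ℤ) (σ : Fin m → Fin n) (hσ : Function.Injective σ)
    (hg : ∀ i, (∀ j, i ≠ σ j) → g i = 0) (hc : ∀ k, |((c k : ℤ) : ℝ)| ≤ H)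
    (hinj : Function.Injective
      (aeval (fun i => ∑ k, C (MM c σ i k) * X k) : MvPolynomial (Fin n) ℤ →ₐ[ℤ]
        MvPolynomial (Fin (m + 1)) ℤ))
    (hz : ∀ Q : MvPolynomial (Fin (m + 1)) ℤ, Q ≠ 0 → Q.totalDegree ≤ d →
      (∀ e : Fin (m + 1) →₀ ℕ, |((Q.coeff e : ℤ) : ℝ)| ≤ H ^ KK n d) →
      1 ≤ (H ^ KK n d) ^ C0 * ‖aeval (Fin.cons ξ (fun j => g (σ j)) : Fin (m + 1) → ℂ) Q‖)
    (P : MvPolynomial (Fin n) ℤ) (hP : P ≠ 0) (hd : P.totalDegree ≤ d)
    (hPc : ∀ e : Fin n →₀ ℕ, |((P.coeff e : ℤ) : ℝ)| ≤ H) :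
    H ^ (-(C0 * KK n d)) ≤ ‖aeval (fun k => (c k : ℂ) * ξ + g k) P‖ := by
  refine final_step H C0 (KK n d) hH _ ?_
  have h1 := hz (aeval (fun i => ∑ k, C (MM c σ i k) * X k) P)
    (fun e => hP (hinj (by rw [e, map_zero]))) (deg_MM d c σ P hd)
    (height_MM d H hH c σ hσ hc P hd hPc)
  have h2 : aeval (Fin.cons ξ (fun j => g (σ j)) : Fin (m + 1) → ℂ)
      (aeval (fun i => ∑ k, C (MM c σ i k) * X k) P : MvPolynomial (Fin (m + 1)) ℤ) =
      aeval (fun k => (c k : ℂ) * ξ + g k) P := by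
    rw [← AlgHom.comp_apply]
    congr 1
    ext i
    rw [AlgHom.comp_apply, aeval_X, aeval_X, ← MM_sum c σ ξ g hσ hg i, map_sum]
    refine Finset.sum_congr rfl fun k _ => ?_
    rw [map_mul, aeval_X]
    congr 1
    simp
  rw [h2] at h1
  exact h1

theorem pf_V (hF : Pool.Agent.H81.CC.T_CCF) : S_V := by
  classical
  intro n d
  obtain ⟨δ1, N1, hδ1, h1⟩ := hF n d
  obtain ⟨δ2, N2, hδ2, h2⟩ := hF (n - 1) d
  refine ⟨min δ1 δ2, max (max N1 N2) 1, lt_min hδ1 hδ2, ?_⟩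
  intro ξ hξ0 hξa hξr
  obtain ⟨C1, hC1, h1⟩ := h1 ξ hξ0 hξa (star_of hξr)
  obtain ⟨C2, hC2, h2⟩ := h2 ξ hξ0 hξa (star_of hξr)
  have hKpos : (0 : ℝ) < KK n d := by
    have : 0 < KK n d := by unfold KK; omega
    exact_mod_cast this
  refine ⟨max C1 C2 * KK n d, mul_pos (lt_max_of_lt_left hC1) hKpos, ?_⟩
  intro N hN x y hxy hcj c hc H hH hNH hcH P hP hd hPc
  have hN1 : N1 ≤ N := (le_max_left _ _).trans ((le_max_left _ _).trans hN)
  have hN2 : N2 ≤ N := (le_max_right _ _).trans ((le_max_left _ _).trans hN)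
  have hN3 : (1 : ℝ) ≤ N := by exact_mod_cast (le_max_right _ _).trans hN
  have hb1 : (N : ℝ) ^ (min δ1 δ2) ≤ (N : ℝ) ^ δ1 :=
    Real.rpow_le_rpow_of_exponent_le hN3 (min_le_left _ _)
  have hb2 : (N : ℝ) ^ (min δ1 δ2) ≤ (N : ℝ) ^ δ2 :=
    Real.rpow_le_rpow_of_exponent_le hN3 (min_le_right _ _)
  have hK1 : 1 ≤ KK n d := by unfold KK; omega
  have hHK : H ≤ H ^ KK n d := by
    calc H = H ^ 1 := (pow_one H).symm
      _ ≤ H ^ KK n d := pow_le_pow_right₀ (by linarith) hK1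
  have hH0 : (0 : ℝ) < H := by linarith
  have hmono : ∀ C' : ℝ, C' ≤ max C1 C2 →
      H ^ (-(max C1 C2 * KK n d)) ≤ H ^ (-(C' * KK n d)) := by
    intro C' hC'
    refine Real.rpow_le_rpow_of_exponent_le (by linarith) ?_
    have := mul_le_mul_of_nonneg_right hC' hKpos.le
    linarith
  by_cases hall : ∀ k, y k ≠ 0
  · refine (hmono C1 (le_max_left _ _)).trans ?_
    exact use_sub hC1 hH
      (fun k => Complex.log (1 + ((x k : ℂ) + (y k : ℂ) * Complex.I) / N)) c id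
      Function.injective_id (fun i hi => absurd rfl (hi i)) hcH (inj_id c)
      (fun Q hQ hQd hQc => h1 N hN1 x y ⟨hall, hcj⟩
        (fun k => ⟨(hxy k).1.trans hb1, (hxy k).2.trans hb1⟩) (H ^ KK n d)
        (hH.trans hHK) (hNH.trans hHK) Q hQ hQd hQc) P hP hd hPc
  · rw [not_forall] at hall
    obtain ⟨j0, hj0⟩ := hall
    rw [not_ne_iff] at hj0
    obtain ⟨m, rfl⟩ : ∃ m, n = m + 1 := ⟨n - 1, by have := j0.2; omega⟩
    rw [Nat.add_sub_cancel] at h2
    have hx0 : x j0 = 0 ∧ c j0 ≠ 0 := by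
      rcases hc j0 with h | h
      · exact absurd hj0 h
      · exact h
    have hyne : ∀ j : Fin m, y (j0.succAbove j) ≠ 0 := by
      intro j hj
      rcases hc (j0.succAbove j) with h | h
      · exact h hj
      · have h3 := hcj (j0.succAbove j) j0 (Fin.succAbove_ne j0 j) (h.1.trans hx0.1.symm)
        exact h3.1 (hj.trans hj0.symm)
    refine (hmono C2 (le_max_right _ _)).trans ?_
    exact use_sub hC2 hH
      (fun k => Complex.log (1 + ((x k : ℂ) + (y k : ℂ) * Complex.I) / N)) c j0.succAbove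
      Fin.succAbove_right_injective (fun i hi => by
        rcases Fin.eq_self_or_eq_succAbove j0 i with h | ⟨j, h⟩
        · rw [h, hj0, hx0.1]
          simp
        · exact absurd h (hi j)) hcH (inj_succ c j0 hx0.2)
      (fun Q hQ hQd hQc => h2 N hN2 (fun j => x (j0.succAbove j)) (fun j => y (j0.succAbove j))
        ⟨hyne, fun j k hjk => hcj _ _ (fun e => hjk (Fin.succAbove_right_injective e))⟩
        (fun k => ⟨(hxy _).1.trans hb2, (hxy _).2.trans hb2⟩) (H ^ KK (m + 1) d)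
        (hH.trans hHK) (hNH.trans hHK) Q hQ hQd hQc) P hP hd hPc

end Pool.Agent.H72.CC
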