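import Pool.Agent.H72.CC.V
import Pool.Agent.H81.CC.CCF
import Pool.Agent.H72.GP.Targets2

/-!
# from uniform statements to the final form
-/

set_option autoImplicit false

namespace Pool.Agent.H72.CC

open MvPolynomial

/-- the final form, for numbers which are not real or zero -/
def S_V1 : Prop := ∀ n d : ℕ, ∃ (δ : ℝ) (N₁ : ℕ), 0 < δ ∧
  ∀ ξ : ℂ, ξ ≠ 0 → IsAlgebraic ℚ (Complex.exp ξ) → ξ.re = 0 ∨ ξ.im = 0 → ∃ C : ℝ, 0 < C ∧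
  ∀ N : ℕ, N₁ ≤ N → ∀ x y c : Fin n → ℤ,
  (∀ k, |(x k : ℝ)| ≤ (N : ℝ) ^ δ ∧ |(y k : ℝ)| ≤ (N : ℝ) ^ δ) →
  (∀ j k, j ≠ k → x j = x k → y j ≠ y k ∧ y j ≠ - y k) →
  (∀ k, y k = 0 → x k = 0 ∧ c k ≠ 0) →
  ∀ H M : ℝ, 2 ≤ H → 1 ≤ M → (∀ k, |(c k : ℝ)| ≤ M) →
  ∀ P : MvPolynomial (Fin n) ℤ, P ≠ 0 → P.totalDegree ≤ d →
  (∀ e : Fin n →₀ ℕ, |((coeff e P : ℤ) : ℝ)| ≤ H) →
  (M * N * H) ^ (-C) ≤ ‖aeval (fun k => (c k : ℂ) * ξ +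
    Complex.log (1 + ((x k : ℂ) + (y k : ℂ) * Complex.I) / N)) P‖

/-- the final form -/
def S_W : Prop := ∀ n d : ℕ, ∃ (δ : ℝ) (N₁ : ℕ), 0 < δ ∧
  ∀ ξ : ℂ, ξ ≠ 0 → IsAlgebraic ℚ (Complex.exp ξ) → ξ.re = 0 ∨ ξ.im = 0 → ∃ C : ℝ, 0 < C ∧
  ∀ N : ℕ, N₁ ≤ N → ∀ x y c : Fin n → ℤ,
  (∀ k, |(x k : ℝ)| ≤ (N : ℝ) ^ δ ∧ |(y k : ℝ)| ≤ (N : ℝ) ^ δ) →
  (∀ j k, j ≠ k → x j = x k → y j ≠ y k ∧ y j ≠ - y k) →
  (∀ k, y k = 0 → (x k ≠ 0 ∧ (ξ.re = 0 ∨ c k = 0)) ∨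
    (x k = 0 ∧ c k ≠ 0 ∧ ∀ j, j ≠ k → y j ≠ 0)) →
  ∀ H M : ℝ, 2 ≤ H → 1 ≤ M → (∀ k, |(c k : ℝ)| ≤ M) →
  ∀ P : MvPolynomial (Fin n) ℤ, P ≠ 0 → P.totalDegree ≤ d →
  (∀ e : Fin n →₀ ℕ, |((coeff e P : ℤ) : ℝ)| ≤ H) →
  (M * N * H) ^ (-C) ≤ ‖aeval (fun k => (c k : ℂ) * ξ +
    Complex.log (1 + ((x k : ℂ) + (y k : ℂ) * Complex.I) / N)) P‖

theorem prod_ge (M H : ℝ) (N : ℕ) (hN : 1 ≤ N) (hH : 2 ≤ H) (hM : 1 ≤ M) :
    2 ≤ M * N * H ∧ H ≤ M * N * H ∧ (N : ℝ) ≤ M * N * H ∧ M ≤ M * N * H := by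
  have hN1 : (1 : ℝ) ≤ N := by exact_mod_cast hN
  have h1 : 1 ≤ M * N := one_le_mul_of_one_le_of_one_le hM hN1
  have h2 : H ≤ M * N * H := le_mul_of_one_le_left (by linarith) h1
  refine ⟨hH.trans h2, h2, ?_, ?_⟩
  · calc (N : ℝ) ≤ M * N := le_mul_of_one_le_left (by linarith) hM
      _ ≤ M * N * H := le_mul_of_one_le_right (by linarith) (by linarith)
  · calc M ≤ M * N := le_mul_of_one_le_right (by linarith) hN1
      _ ≤ M * N * H := le_mul_of_one_le_right (by linarith) (by linarith)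

theorem pf_V1 (hV : S_V) : S_V1 := by
  intro n d
  obtain ⟨δ, N₁, hδ, hmain⟩ := hV n d
  refine ⟨δ, max N₁ 1, hδ, ?_⟩
  intro ξ hξ0 hξa hξr
  obtain ⟨C, hC, h⟩ := hmain ξ hξ0 hξa hξr
  refine ⟨C, hC, ?_⟩
  intro N hN x y c hxy hcj hre H M hH hM hcM P hP hd hc
  obtain ⟨h1, h2, h3, h4⟩ := prod_ge M H N ((le_max_right _ _).trans hN) hH hM
  refine h N ((le_max_left _ _).trans hN) x y hxy hcj c ?_ (M * N * H) h1 h3
    (fun k => (hcM k).trans h4) P hP hd (fun e => (hc e).trans h2)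
  intro k
  by_cases hy : y k = 0
  · exact Or.inr (hre k hy)
  · exact Or.inl hy

theorem pf_W (hV : S_V) (hM : Pool.Agent.H72.GP.T_CCM) : S_W := by
  intro n d
  obtain ⟨δ₁, N₁, hδ₁, hmain⟩ := pf_V1 hV n d
  obtain ⟨δ₂, N₂, C₂, hδ₂, hC₂, hmix⟩ := hM n d
  refine ⟨min δ₁ δ₂, max (max N₁ N₂) 1, lt_min hδ₁ hδ₂, ?_⟩
  intro ξ hξ0 hξa hξr
  obtain ⟨C₁, hC₁, h⟩ := hmain ξ hξ0 hξa hξr
  obtain ⟨m, hm⟩ := pow_unbounded_of_one_lt ‖ξ‖ (one_lt_two : (1 : ℝ) < 2)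
  refine ⟨max C₁ ((m + 1 : ℕ) * C₂), lt_max_of_lt_left hC₁, ?_⟩
  intro N hN x y c hxy hcj hre H M hH hM1 hcM P hP hd hc
  have hN1 : 1 ≤ N := (le_max_right _ _).trans hN
  have hN1' : (1 : ℝ) ≤ N := by exact_mod_cast hN1
  obtain ⟨h1, h2, h3, h4⟩ := prod_ge M H N hN1 hH hM1
  have hδ1 : (N : ℝ) ^ (min δ₁ δ₂) ≤ (N : ℝ) ^ δ₁ :=
    Real.rpow_le_rpow_of_exponent_le hN1' (min_le_left _ _)
  have hδ2 : (N : ℝ) ^ (min δ₁ δ₂) ≤ (N : ℝ) ^ δ₂ :=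
    Real.rpow_le_rpow_of_exponent_le hN1' (min_le_right _ _)
  have hK1 : (1 : ℝ) ≤ M * N * H := by linarith
  by_cases hz : ∃ k, y k = 0 ∧ x k = 0
  · obtain ⟨k, hyk, hxk⟩ := hz
    refine le_trans (Real.rpow_le_rpow_of_exponent_le hK1 (neg_le_neg (le_max_left _ _)))
      (h N ((le_max_left _ _).trans ((le_max_left _ _).trans hN)) x y c
      (fun j => ⟨(hxy j).1.trans hδ1, (hxy j).2.trans hδ1⟩) hcj ?_ H M hH hM1 hcM P hP hd hc)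
    rcases hre k hyk with h5 | ⟨-, h5, h6⟩
    · exact absurd hxk h5.1
    · intro j hj
      by_cases hjk : j = k
      · rw [hjk]
        exact ⟨hxk, h5⟩
      · exact absurd hj (h6 j hjk)
  · push Not at hz
    set K : ℝ := M * N * H with hK
    have hK2 : 2 ≤ K := h1
    have hKm : K ≤ K ^ (m + 1) := by
      calc K = K ^ 1 := (pow_one K).symm
        _ ≤ K ^ (m + 1) := pow_le_pow_right₀ hK1 (by omega)
    have hξK : ‖ξ‖ ≤ K ^ (m + 1) := by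
      calc ‖ξ‖ ≤ 2 ^ m := hm.le
        _ ≤ K ^ m := pow_le_pow_left₀ (by norm_num) hK2 m
        _ ≤ K ^ (m + 1) := pow_le_pow_right₀ hK1 (by omega)
    have hconj : (starRingEnd ℂ) ξ = ξ ∨ (starRingEnd ℂ) ξ = -ξ := by
      rcases hξr with h5 | h5
      · right
        apply Complex.ext
        · simp [h5]
        · simp
      · left
        exact Complex.conj_eq_iff_im.2 h5
    have h7 := hmix N ((le_max_right _ _).trans ((le_max_left _ _).trans hN)) x y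
      (fun k => by
        by_cases hy : y k = 0
        · exact Or.inl (hz k hy)
        · exact Or.inr hy) hcj
      (fun j => ⟨(hxy j).1.trans hδ2, (hxy j).2.trans hδ2⟩) (K ^ (m + 1)) (hK2.trans hKm)
      (h3.trans hKm) ξ hξK hconj c (fun k => (hcM k).trans (h4.trans hKm))
      (fun k hy => by
        rcases hre k hy with ⟨-, h5 | h5⟩ | h5
        · left
          apply Complex.ext
          · simp [h5]
          · simp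
        · exact Or.inr h5
        · exact absurd h5.1 (hz k hy)) P hP hd (fun e => (hc e).trans (h2.trans hKm))
    have hK0 : (0 : ℝ) < K := by linarith
    have h8 : (K ^ (m + 1)) ^ C₂ = K ^ (((m + 1 : ℕ) : ℝ) * C₂) := by
      rw [Real.rpow_mul hK0.le, Real.rpow_natCast]
    rw [h8] at h7
    refine le_trans (Real.rpow_le_rpow_of_exponent_le hK1 (neg_le_neg (le_max_right _ _))) ?_
    rw [Real.rpow_neg hK0.le]
    rw [inv_le_iff_one_le_mul₀ (Real.rpow_pos_of_pos hK0 _), mul_comm]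
    exact h7

end Pool.Agent.H72.CC
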